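import Mathlib

/-!
`PGL(2, R)` for commutative rings: functoriality, elements of order `m`.
-/

set_option autoImplicit false

namespace Pool.Agent.Helper4.FS

open Matrix

universe u v w

/-- The Lucas sequence `U_n(τ, δ)`. -/
def lu {R : Type*} [CommRing R] (τ δ : R) : ℕ → R
  | 0 => 0
  | 1 => 1
  | (n + 2) => τ * lu τ δ (n + 1) - δ * lu τ δ n

section Lucas

variable {R : Type u} {S : Type v} [CommRing R] [CommRing S]

theorem lu_map (f : R →+* S) (τ δ : R) : ∀ n, f (lu τ δ n) = lu (f τ) (f δ) n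
  | 0 => by simp [lu]
  | 1 => by simp [lu]
  | (n + 2) => by
    rw [lu, lu, map_sub, map_mul, map_mul, lu_map f τ δ (n + 1), lu_map f τ δ n]

theorem lu_scale (c τ δ : R) : ∀ n, lu (c * τ) (c ^ 2 * δ) (n + 1) = c ^ n * lu τ δ (n + 1)
  | 0 => by simp [lu]
  | 1 => by simp [lu]
  | (n + 2) => by
    have e1 : lu (c * τ) (c ^ 2 * δ) (n + 2 + 1)
      = c * τ * lu (c * τ) (c ^ 2 * δ) (n + 1 + 1) - c ^ 2 * δ * lu (c * τ) (c ^ 2 * δ) (n + 1) := rfl
    have e2 : lu τ δ (n + 2 + 1) = τ * lu τ δ (n + 1 + 1) - δ * lu τ δ (n + 1) := rfl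
    rw [e1, e2, lu_scale c τ δ (n + 1), lu_scale c τ δ n]
    ring

theorem cayley (M : Matrix (Fin 2) (Fin 2) R) : M * M = M.trace • M - M.det • 1 := by
  ext i j
  fin_cases i <;> fin_cases j <;>
    simp [Matrix.trace_fin_two, Matrix.det_fin_two, Matrix.mul_apply, Fin.sum_univ_two] <;> ring

theorem mat_pow (M : Matrix (Fin 2) (Fin 2) R) (n : ℕ) :
    M ^ (n + 1) = lu M.trace M.det (n + 1) • M - (M.det * lu M.trace M.det n) • 1 := by
  induction n with
  | zero => simp [lu]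
  | succ n ih =>
    rw [pow_succ, ih, sub_mul, smul_mul_assoc, cayley, smul_mul_assoc, one_mul]
    conv_rhs => rw [lu]
    module

end Lucas

/-- `GL(2, R)` -/
abbrev G2 (R : Type u) [CommRing R] : Type u := GL (Fin 2) R
/-- `PGL(2, R)` -/
abbrev P2 (R : Type u) [CommRing R] : Type u := Matrix.ProjGenLinGroup (Fin 2) R

section Proj

variable {R : Type u} {S : Type v} {T : Type w} [CommRing R] [CommRing S] [CommRing T]

theorem mem_cen (g : G2 R) : g ∈ Subgroup.center (G2 R) ↔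
    (g : Matrix (Fin 2) (Fin 2) R) 0 1 = 0 ∧ (g : Matrix (Fin 2) (Fin 2) R) 1 0 = 0 ∧
      (g : Matrix (Fin 2) (Fin 2) R) 0 0 = (g : Matrix (Fin 2) (Fin 2) R) 1 1 := by
  rw [Matrix.GeneralLinearGroup.mem_center_iff_val_mem_range_scalar]
  constructor
  · rintro ⟨a, ha⟩
    rw [← ha]
    simp
  · rintro ⟨h1, h2, h3⟩
    refine ⟨(g : Matrix (Fin 2) (Fin 2) R) 0 0, ?_⟩
    ext i j
    fin_cases i <;> fin_cases j
    · simp
    · simp [h1]
    · simp [h2]
    · simp [h3]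

/-- The homomorphism of projective groups given by a homomorphism of rings. -/
def pm (f : R →+* S) : P2 R →* P2 S :=
  QuotientGroup.map _ _ (Matrix.GeneralLinearGroup.map f)
    (Matrix.GeneralLinearGroup.map_center_le f)

theorem pm_mk (f : R →+* S) (g : G2 R) :
    pm f (ProjGenLinGroup.mk g) = ProjGenLinGroup.mk (Matrix.GeneralLinearGroup.map f g) := rfl

theorem pm_comp (f : R →+* S) (g : S →+* T) (x : P2 R) : pm g (pm f x) = pm (g.comp f) x := by
  obtain ⟨y, rfl⟩ := ProjGenLinGroup.mk_surjective x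
  rw [pm_mk, pm_mk, pm_mk]
  congr 1

theorem pm_inj (f : R →+* S) (hf : Function.Injective f) : Function.Injective (pm f) := by
  rw [injective_iff_map_eq_one]
  intro x hx
  obtain ⟨g, rfl⟩ := ProjGenLinGroup.mk_surjective x
  rw [pm_mk, ProjGenLinGroup.mk_eq_one, mem_cen] at hx
  rw [ProjGenLinGroup.mk_eq_one, mem_cen]
  obtain ⟨h1, h2, h3⟩ := hx
  simp only [Matrix.GeneralLinearGroup.map_apply] at h1 h2 h3
  exact ⟨hf (by rw [h1, map_zero]), hf (by rw [h2, map_zero]), hf h3⟩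

/-- Matrices with `U_m = 0` have order dividing `m` in `PGL(2)`. -/
theorem mk_pow_eq_one (g : G2 R) (n : ℕ)
    (h : lu (g : Matrix (Fin 2) (Fin 2) R).trace (g : Matrix (Fin 2) (Fin 2) R).det (n + 1) = 0) :
    (ProjGenLinGroup.mk g : P2 R) ^ (n + 1) = 1 := by
  rw [← map_pow, ProjGenLinGroup.mk_eq_one,
    Matrix.GeneralLinearGroup.mem_center_iff_val_mem_range_scalar]
  refine ⟨-((g : Matrix (Fin 2) (Fin 2) R).det *
    lu (g : Matrix (Fin 2) (Fin 2) R).trace (g : Matrix (Fin 2) (Fin 2) R).det n), ?_⟩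
  rw [Units.val_pow_eq_pow_val, mat_pow, h, zero_smul, zero_sub, ← neg_smul]
  ext i j
  simp [Matrix.scalar_apply, Matrix.diagonal_apply, Matrix.one_apply, Matrix.smul_apply]

/-- Conjugate elements. -/
theorem lu_conj (x y z : G2 R) (h : (ProjGenLinGroup.mk y : P2 R)
      = ProjGenLinGroup.mk z * ProjGenLinGroup.mk x * (ProjGenLinGroup.mk z)⁻¹) (n : ℕ) :
    ∃ c : Rˣ, lu (y : Matrix (Fin 2) (Fin 2) R).trace (y : Matrix (Fin 2) (Fin 2) R).det (n + 1)
      = (c : R) * lu (x : Matrix (Fin 2) (Fin 2) R).trace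
          (x : Matrix (Fin 2) (Fin 2) R).det (n + 1) := by
  rw [← map_mul, ← map_inv, ← map_mul, eq_comm, ProjGenLinGroup.mk_eq_mk_iff] at h
  obtain ⟨c, hc⟩ := h
  refine ⟨c ^ n, ?_⟩
  have h1 : (y : Matrix (Fin 2) (Fin 2) R) = (c : R) • ((z : Matrix (Fin 2) (Fin 2) R)
      * (x : Matrix (Fin 2) (Fin 2) R) * ((z⁻¹ : G2 R) : Matrix (Fin 2) (Fin 2) R)) := by
    rw [← hc]
    rw [Units.val_mul, Units.val_mul, Units.val_mul]
    ext i j
    simp [Matrix.GeneralLinearGroup.coe_scalar, Matrix.mul_diagonal, mul_comm]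
  have h2 : (y : Matrix (Fin 2) (Fin 2) R).trace
      = (c : R) * (x : Matrix (Fin 2) (Fin 2) R).trace := by
    rw [h1, Matrix.trace_smul, Matrix.trace_units_conj, smul_eq_mul]
  have h3 : (y : Matrix (Fin 2) (Fin 2) R).det
      = (c : R) ^ 2 * (x : Matrix (Fin 2) (Fin 2) R).det := by
    rw [h1, Matrix.det_smul, Matrix.det_units_conj]
    simp
  rw [h2, h3, lu_scale, Units.val_pow_eq_pow_val]

end Proj

end Pool.Agent.Helper4.FS
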