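import Pool.Agent.Helper4.FS.Main
import Pool.Agent.Helper88.P3.Amal

/-!
The Freiheitssatz for `r ^ m`, letters in `PGL(2, R)` for local rings `R`.
-/

set_option autoImplicit false

namespace Pool.Agent.Helper4.FS

open Polynomial Matrix Monoid

universe u v w

/-- Reduction modulo the maximal ideal. -/
noncomputable def rd (R : Type w) [CommRing R] [IsLocalRing R] :
    P2 R →* P2 (IsLocalRing.ResidueField R) := pm (IsLocalRing.residue R)

/-- The image of `r` is conjugate to a nonempty word with nontrivial letters. -/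
def Wr {G : Type u} {H : Type v} [Group G] [Group H] (r : Coprod G H) : Prop :=
  ∃ L0 : List (G × H), L0 ≠ [] ∧ (∀ p ∈ L0, p.1 ≠ 1 ∧ p.2 ≠ 1) ∧ IsConj r (wd L0)

theorem coef3 {F : Type u} [CommRing F] (a b c : F) (h : a ≠ 0 ∨ b ≠ 0 ∨ c ≠ 0) :
    (C a + C b * X - C c * X ^ 2 : F[X]) ≠ 0 := by
  intro h0
  have e0 : (C a + C b * X - C c * X ^ 2 : F[X]).coeff 0 = a := by simp
  have e1 : (C a + C b * X - C c * X ^ 2 : F[X]).coeff 1 = b := by
    simp [Polynomial.coeff_C, Polynomial.coeff_X]
  have e2 : (C a + C b * X - C c * X ^ 2 : F[X]).coeff 2 = -c := by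
    simp [Polynomial.coeff_C, Polynomial.coeff_X]
  rw [h0, Polynomial.coeff_zero] at e0 e1 e2
  rcases h with h | h | h
  · exact h e0.symm
  · exact h e1.symm
  · exact h (neg_eq_zero.mp e2.symm)

section

variable {A : Type u} {B : Type v} [Group A] [Group B]

/-- Homomorphisms over a local ring. -/
theorem main_local (R : Type w) [CommRing R] [IsLocalRing R] (α : A →* P2 R) (β : B →* P2 R)
    (r : Coprod A B) (hr : Wr (Coprod.map ((rd R).comp α) ((rd R).comp β) r)) (n : ℕ) :
    ∃ (S : Type w) (_ : CommRing S) (f : R →+* S) (g : P2 S), Function.Injective f ∧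
      Coprod.lift ((pm f).comp α) ((MulAut.conj g).toMonoidHom.comp ((pm f).comp β)) r
        ^ (n + 2) = 1 := by
  set σ := IsLocalRing.residue R with hσ
  have h0 := gd_base R
  have h1 := gd_step h0
  have h2 := gd_step h1
  have h3 := gd_step h2
  refine main_gen (D := (IsLocalRing.ResidueField R)[X][X]) σ _ _
    ((Polynomial.C : (IsLocalRing.ResidueField R)[X] →+* (IsLocalRing.ResidueField R)[X][X]).comp
      (Polynomial.C : (IsLocalRing.ResidueField R) →+* (IsLocalRing.ResidueField R)[X]))
    ?_ h3 (C (C X)) X (C X) (C X) X ?_ ?_ ?_ ?_ ?_ α β r hr n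
  · ext a
    simp [hσ]
  · simp
  · simp
  · simp
  · intro a b c h
    have h4 := coef3 a b c h
    intro h5
    apply h4
    have h6 : ((Polynomial.C : (IsLocalRing.ResidueField R)[X] →+* (IsLocalRing.ResidueField R)[X][X])
        (C a + C b * X - C c * X ^ 2)) = 0 := by
      rw [← h5]
      simp
    exact Polynomial.C_eq_zero.mp h6
  · intro a b c h
    apply coef3
    rcases h with h | h | h
    · left; exact fun h' => h (Polynomial.C_eq_zero.mp h')
    · right; left; exact fun h' => h (Polynomial.C_eq_zero.mp h')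
    · right; right; exact fun h' => h (Polynomial.C_eq_zero.mp h')

/-- An element separated by homomorphisms over local rings is not killed. -/
theorem inl_notMem (R : Type w) [CommRing R] [IsLocalRing R] (α : A →* P2 R) (β : B →* P2 R)
    (r : Coprod A B) (hr : Wr (Coprod.map ((rd R).comp α) ((rd R).comp β) r)) {m : ℕ}
    (hm : 2 ≤ m) {a : A} (ha : α a ≠ 1) :
    (Coprod.inl a : Coprod A B) ∉ Subgroup.normalClosure ({r ^ m} : Set (Coprod A B)) := by
  obtain ⟨n, rfl⟩ : ∃ n, m = n + 2 := ⟨m - 2, by omega⟩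
  obtain ⟨S, _, f, g, hf, hk⟩ := main_local R α β r hr n
  intro hmem
  have h2 : Subgroup.normalClosure ({r ^ (n + 2)} : Set (Coprod A B)) ≤
      (Coprod.lift ((pm f).comp α) ((MulAut.conj g).toMonoidHom.comp ((pm f).comp β))).ker := by
    apply Subgroup.normalClosure_le_normal
    rintro _ rfl
    show _ = _
    rw [map_pow]
    exact hk
  have h3 := h2 hmem
  rw [MonoidHom.mem_ker, Coprod.lift_apply_inl, MonoidHom.comp_apply] at h3
  exact ha (pm_inj f hf (by rw [h3, map_one]))

theorem inr_notMem (R : Type w) [CommRing R] [IsLocalRing R] (α : A →* P2 R) (β : B →* P2 R)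
    (r : Coprod A B) (hr : Wr (Coprod.map ((rd R).comp α) ((rd R).comp β) r)) {m : ℕ}
    (hm : 2 ≤ m) {b : B} (hb : β b ≠ 1) :
    (Coprod.inr b : Coprod A B) ∉ Subgroup.normalClosure ({r ^ m} : Set (Coprod A B)) := by
  obtain ⟨n, rfl⟩ : ∃ n, m = n + 2 := ⟨m - 2, by omega⟩
  obtain ⟨S, _, f, g, hf, hk⟩ := main_local R α β r hr n
  intro hmem
  have h2 : Subgroup.normalClosure ({r ^ (n + 2)} : Set (Coprod A B)) ≤
      (Coprod.lift ((pm f).comp α) ((MulAut.conj g).toMonoidHom.comp ((pm f).comp β))).ker := by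
    apply Subgroup.normalClosure_le_normal
    rintro _ rfl
    show _ = _
    rw [map_pow]
    exact hk
  have h3 := h2 hmem
  rw [MonoidHom.mem_ker, Coprod.lift_apply_inr, MonoidHom.comp_apply] at h3
  have h4 : g * pm f (β b) * g⁻¹ = 1 := h3
  rw [conj_eq_one_iff] at h4
  exact hb (pm_inj f hf (by rw [h4, map_one]))

/-- Amalgams: it is enough to look at the subgroups generated by the letters. -/
theorem sub_gen (A₀ : Subgroup A) (B₀ : Subgroup B) (r : Coprod A₀ B₀) (m : ℕ)
    (h0 : Function.Injective ((QuotientGroup.mk' (Subgroup.normalClosure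
      ({r ^ m} : Set (Coprod A₀ B₀)))).comp (Coprod.inl : A₀ →* Coprod A₀ B₀)))
    (hB : B₀ = ⊤ ∨ Function.Injective ((QuotientGroup.mk' (Subgroup.normalClosure
      ({r ^ m} : Set (Coprod A₀ B₀)))).comp (Coprod.inr : B₀ →* Coprod A₀ B₀))) :
    Function.Injective
      ((QuotientGroup.mk' (Subgroup.normalClosure
          ({Coprod.map A₀.subtype B₀.subtype r ^ m} : Set (Coprod A B)))).comp
        (Coprod.inl : A →* Coprod A B)) := by
  set q := QuotientGroup.mk' (Subgroup.normalClosure ({r ^ m} : Set (Coprod A₀ B₀))) with hq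
  have hqr : q (r ^ m) = 1 :=
    (QuotientGroup.eq_one_iff _).2 (Subgroup.subset_normalClosure (Set.mem_singleton _))
  obtain ⟨P, _, i, j, hi, hj, hij⟩ := Pool.Agent.Helper88.P3.exists_amalgam A₀.subtype
    (q.comp Coprod.inl) A₀.subtype_injective h0
  rcases hB with hB | hB
  · subst hB
    refine Pool.Agent.Helper88.P3.inj_of_hom (P := P) (Coprod.lift i
      ((j.comp (q.comp Coprod.inr)).comp
        (Subgroup.topEquiv.symm.toMonoidHom : B →* (⊤ : Subgroup B))))
      _ ?_ ?_
    · have key : (Coprod.lift i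
          ((j.comp (q.comp Coprod.inr)).comp
            (Subgroup.topEquiv.symm.toMonoidHom : B →* (⊤ : Subgroup B)))).comp
          (Coprod.map A₀.subtype (⊤ : Subgroup B).subtype) = j.comp q := by
        apply Coprod.hom_ext
        · ext a
          exact hij a
        · ext b
          rfl
      have := DFunLike.congr_fun key (r ^ m)
      rw [MonoidHom.comp_apply, MonoidHom.comp_apply, hqr, map_one, map_pow] at this
      exact this
    · intro x y hxy
      exact hi hxy
  · have hinj : Function.Injective (j.comp (q.comp Coprod.inr)) := hj.comp hB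
    obtain ⟨P', _, i', j', hi', hj', hij'⟩ := Pool.Agent.Helper88.P3.exists_amalgam
      (j.comp (q.comp Coprod.inr)) B₀.subtype hinj B₀.subtype_injective
    refine Pool.Agent.Helper88.P3.inj_of_hom (P := P') (Coprod.lift (i'.comp i) j') _ ?_ ?_
    · have key : (Coprod.lift (i'.comp i) j').comp
          (Coprod.map A₀.subtype B₀.subtype) = i'.comp (j.comp q) := by
        apply Coprod.hom_ext
        · ext a
          exact congrArg i' (hij a)
        · ext b
          exact (hij' b).symm
      have := DFunLike.congr_fun key (r ^ m)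
      rw [MonoidHom.comp_apply, MonoidHom.comp_apply, MonoidHom.comp_apply, hqr, map_one, map_one,
        map_pow] at this
      exact this
    · intro x y hxy
      exact hi (hi' hxy)

/-- Quotients by the normal closure. -/
theorem mk_inl_inj (s : Coprod A B)
    (h : ∀ a : A, a ≠ 1 → (Coprod.inl a : Coprod A B) ∉ Subgroup.normalClosure {s}) :
    Function.Injective ((QuotientGroup.mk' (Subgroup.normalClosure
      ({s} : Set (Coprod A B)))).comp (Coprod.inl : A →* Coprod A B)) := by
  rw [injective_iff_map_eq_one]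
  intro a ha
  by_contra hne
  exact h a hne ((QuotientGroup.eq_one_iff _).1 ha)

theorem mk_inr_inj (s : Coprod A B)
    (h : ∀ b : B, b ≠ 1 → (Coprod.inr b : Coprod A B) ∉ Subgroup.normalClosure {s}) :
    Function.Injective ((QuotientGroup.mk' (Subgroup.normalClosure
      ({s} : Set (Coprod A B)))).comp (Coprod.inr : B →* Coprod A B)) := by
  rw [injective_iff_map_eq_one]
  intro a ha
  by_contra hne
  exact h a hne ((QuotientGroup.eq_one_iff _).1 ha)

/-- Good homomorphisms: the image of `r` over the residue field is not conjugate to an element of a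
factor, or both reductions are injective. -/
def Gh {A₀ : Type u} {B₀ : Type v} [Group A₀] [Group B₀] (R : Type w) [CommRing R] [IsLocalRing R]
    (α : A₀ →* P2 R) (β : B₀ →* P2 R) (r : Coprod A₀ B₀) : Prop :=
  ((∀ c, ¬ IsConj (Coprod.map ((rd R).comp α) ((rd R).comp β) r) (Coprod.inl c)) ∧
    ∀ c, ¬ IsConj (Coprod.map ((rd R).comp α) ((rd R).comp β) r) (Coprod.inr c)) ∨
  (Function.Injective ((rd R).comp α) ∧ Function.Injective ((rd R).comp β))

theorem gh_wr {A₀ : Type u} {B₀ : Type v} [Group A₀] [Group B₀] {R : Type w} [CommRing R]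
    [IsLocalRing R] {α : A₀ →* P2 R} {β : B₀ →* P2 R} {r : Coprod A₀ B₀}
    (h1 : ∀ c, ¬ IsConj r (Coprod.inl c)) (h2 : ∀ c, ¬ IsConj r (Coprod.inr c))
    (h : Gh R α β r) : Wr (Coprod.map ((rd R).comp α) ((rd R).comp β) r) := by
  rcases h with ⟨h3, h4⟩ | ⟨h3, h4⟩
  · exact exists_reduced _ h3 h4
  · obtain ⟨L, hL, hl, hc⟩ := exists_reduced r h1 h2
    refine ⟨L.map (fun p => ((rd R).comp α p.1, (rd R).comp β p.2)), ?_, ?_, ?_⟩
    · intro h; exact hL (List.map_eq_nil_iff.mp h)
    · intro p hp
      rw [List.mem_map] at hp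
      obtain ⟨p', hp', rfl⟩ := hp
      obtain ⟨k1, k2⟩ := hl p' hp'
      constructor
      · intro h
        have h' : (rd R).comp α p'.1 = 1 := h
        exact k1 (h3 (by rw [h', map_one]))
      · intro h
        have h' : (rd R).comp β p'.2 = 1 := h
        exact k2 (h4 (by rw [h', map_one]))
    · have h6 := (Coprod.map ((rd R).comp α) ((rd R).comp β)).map_isConj hc
      have h7 : Coprod.map ((rd R).comp α) ((rd R).comp β) (wd L)
          = wd (L.map (fun p => ((rd R).comp α p.1, (rd R).comp β p.2))) := by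
        clear h6 hc hl hL
        induction L with
        | nil => simp [wd]
        | cons p L ih => rw [wd_cons, map_mul, map_mul, ih, List.map_cons, wd_cons]; simp
      rw [h7] at h6
      exact h6

/-- The final theorem. -/
theorem final (A₀ : Subgroup A) (B₀ : Subgroup B) (r : Coprod A₀ B₀)
    (hr : ∀ a : A, ¬ IsConj (Coprod.map A₀.subtype B₀.subtype r) (Coprod.inl a))
    (m : ℕ) (hm : 2 ≤ m)
    (hA : ∀ a : A₀, a ≠ 1 → ∃ (R : Type w) (_ : CommRing R) (_ : IsLocalRing R)
      (α : A₀ →* P2 R) (β : B₀ →* P2 R), α a ≠ 1 ∧ Gh R α β r)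
    (hB : B₀ = ⊤ ∨ Coprod.snd r ^ m = 1 ∨
      ∀ b : B₀, b ≠ 1 → ∃ (R : Type w) (_ : CommRing R) (_ : IsLocalRing R)
      (α : A₀ →* P2 R) (β : B₀ →* P2 R), β b ≠ 1 ∧ Gh R α β r) :
    Function.Injective
      ((QuotientGroup.mk' (Subgroup.normalClosure
          ({Coprod.map A₀.subtype B₀.subtype r ^ m} : Set (Coprod A B)))).comp
        (Coprod.inl : A →* Coprod A B)) := by
  by_cases h1 : ∃ c, IsConj r (Coprod.inl c)
  · obtain ⟨c, hc⟩ := h1
    have h2 := (Coprod.map A₀.subtype B₀.subtype).map_isConj hc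
    rw [Coprod.map_apply_inl] at h2
    exact absurd h2 (hr _)
  by_cases h2 : ∃ c, IsConj r (Coprod.inr c)
  · obtain ⟨c, hc⟩ := h2
    apply mk_inl_inj
    intro a ha hmem
    have h3 : Subgroup.normalClosure
        ({Coprod.map A₀.subtype B₀.subtype r ^ m} : Set (Coprod A B)) ≤
        (Coprod.fst : Coprod A B →* A).ker := by
      apply Subgroup.normalClosure_le_normal
      rintro _ rfl
      show Coprod.fst (Coprod.map A₀.subtype B₀.subtype r ^ m) = 1
      have h4 := (Coprod.fst.comp (Coprod.map A₀.subtype B₀.subtype)).map_isConj hc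
      rw [MonoidHom.comp_apply, MonoidHom.comp_apply, Coprod.map_apply_inr,
        Coprod.fst_apply_inr, isConj_one_left] at h4
      rw [map_pow, h4, one_pow]
    have h5 := h3 hmem
    rw [MonoidHom.mem_ker, Coprod.fst_apply_inl] at h5
    exact ha h5
  · push Not at h1 h2
    apply sub_gen
    · apply mk_inl_inj
      intro a ha
      obtain ⟨R, _, _, α, β, h3, h4⟩ := hA a ha
      exact inl_notMem R α β r (gh_wr h1 h2 h4) hm h3
    · rcases hB with hB | hB | hB
      · exact Or.inl hB
      · refine Or.inr ?_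
        apply mk_inr_inj
        intro b hb hmem
        have h2 : Subgroup.normalClosure ({r ^ m} : Set (Coprod A₀ B₀)) ≤
            (Coprod.snd : Coprod A₀ B₀ →* B₀).ker := by
          apply Subgroup.normalClosure_le_normal
          rintro _ rfl
          show Coprod.snd (r ^ m) = 1
          rw [map_pow, hB]
        have h3 := h2 hmem
        rw [MonoidHom.mem_ker, Coprod.snd_apply_inr] at h3
        exact hb h3
      · refine Or.inr ?_
        apply mk_inr_inj
        intro b hb
        obtain ⟨R, _, _, α, β, h3, h4⟩ := hB b hb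
        exact inr_notMem R α β r (gh_wr h1 h2 h4) hm h3

end

end Pool.Agent.Helper4.FS
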