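import Pool.Agent.Helper4.FS.Basic

/-!
Quotients `L/(P)` of polynomial rings `L` over a local ring `R`: `R` embeds if the reduction of `P` is
nonzero and not a unit.
-/

set_option autoImplicit false

namespace Pool.Agent.Helper4.FS

open Polynomial nonZeroDivisors

universe u v w

/-- `ι : R → L` constants, `ρ : L → M` reduction. -/
structure Gd {R : Type u} {L : Type v} {M : Type w} [CommRing R] [CommRing L] [CommRing M]
    (ι : R →+* L) (ρ : L →+* M) : Prop where
  dv : ∀ (c : R) (T Q : L), ρ T ≠ 0 → ι c ∣ T * Q → ι c ∣ Q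
  zr : ∀ (c : R) (T : L), c ≠ 0 → ι c * T = 0 → ρ T = 0

theorem gd_base (R : Type u) [CommRing R] [IsLocalRing R] :
    Gd (RingHom.id R) (IsLocalRing.residue R) := by
  have key : ∀ T : R, ¬ IsUnit T → IsLocalRing.residue R T = 0 := by
    intro T h
    rw [← mem_nonunits_iff, ← IsLocalRing.mem_maximalIdeal] at h
    exact Ideal.Quotient.eq_zero_iff_mem.mpr h
  constructor
  · intro c T Q hT h
    have hu : IsUnit T := by
      by_contra hcon
      exact hT (key T hcon)
    exact (hu.dvd_mul_left).mp h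
  · intro c T hc h
    apply key
    intro hu
    exact hc ((hu.mul_left_eq_zero).mp h)

theorem gd_step {R : Type u} {L : Type v} {M : Type w} [CommRing R] [CommRing L] [CommRing M]
    {ι : R →+* L} {ρ : L →+* M} (h : Gd ι ρ) :
    Gd ((Polynomial.C : L →+* L[X]).comp ι) (Polynomial.mapRingHom ρ) := by
  constructor
  · intro c T Q hT hd
    obtain ⟨i, hi⟩ : ∃ i, ρ (T.coeff i) ≠ 0 := by
      by_contra hcon
      push Not at hcon
      apply hT
      ext i
      rw [Polynomial.coe_mapRingHom, Polynomial.coeff_map, hcon i, Polynomial.coeff_zero]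
    set f := Ideal.Quotient.mk (Ideal.span {ι c}) with hf
    have hfz : ∀ x : L, f x = 0 ↔ ι c ∣ x := by
      intro x
      rw [hf, Ideal.Quotient.eq_zero_iff_mem, Ideal.mem_span_singleton]
    have hnz : Polynomial.map f T ∈ (Polynomial (L ⧸ Ideal.span {ι c}))⁰ := by
      apply Polynomial.mem_nonzeroDivisors_of_coeff_mem i
      rw [Polynomial.coeff_map, mem_nonZeroDivisors_iff_right]
      intro y hy
      obtain ⟨y, rfl⟩ := Ideal.Quotient.mk_surjective y
      rw [← hf, ← map_mul, hfz] at hy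
      rw [← hf, hfz]
      rw [mul_comm] at hy
      exact h.dv c _ _ hi hy
    have hz : Polynomial.map f Q * Polynomial.map f T = 0 := by
      rw [← Polynomial.map_mul, mul_comm]
      obtain ⟨V, hV⟩ := hd
      rw [hV, RingHom.comp_apply, Polynomial.map_mul, Polynomial.map_C]
      have : f (ι c) = 0 := (hfz _).mpr dvd_rfl
      rw [this, Polynomial.C_0, zero_mul]
    have hQ : Polynomial.map f Q = 0 := (mem_nonZeroDivisors_iff_right.mp hnz) _ hz
    rw [RingHom.comp_apply, Polynomial.C_dvd_iff_dvd_coeff]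
    intro j
    rw [← hfz, ← Polynomial.coeff_map, hQ, Polynomial.coeff_zero]
  · intro c T hc hT
    ext i
    rw [Polynomial.coe_mapRingHom, Polynomial.coeff_map, Polynomial.coeff_zero]
    apply h.zr c _ hc
    rw [← Polynomial.coeff_C_mul, ← RingHom.comp_apply, hT, Polynomial.coeff_zero]

/-- The injectivity lemma. -/
theorem gd_main {R : Type u} {L : Type v} {M : Type w} [CommRing R] [CommRing L] [CommRing M]
    {ι : R →+* L} {ρ : L →+* M} (h : Gd ι ρ) (P : L) (h0 : ρ P ≠ 0) (h1 : ¬ IsUnit (ρ P))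
    (c : R) (hc : P ∣ ι c) : c = 0 := by
  by_contra hne
  obtain ⟨Q, hQ⟩ := hc
  have h2 : ι c ∣ Q := h.dv c P Q h0 (by rw [← hQ])
  obtain ⟨Q', hQ'⟩ := h2
  have h3 : ι c * (1 - P * Q') = 0 := by
    have h4 : ι c = ι c * (P * Q') := by
      calc ι c = P * Q := hQ
        _ = P * (ι c * Q') := by rw [hQ']
        _ = ι c * (P * Q') := by ring
    rw [mul_sub, mul_one, ← h4, sub_self]
  have h5 := h.zr c _ hne h3
  rw [map_sub, map_one, map_mul, sub_eq_zero] at h5
  exact h1 (IsUnit.of_mul_eq_one _ h5.symm)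

/-- A quotient ring. -/
theorem exists_quot (L : Type u) [CommRing L] (P : L) :
    ∃ (S : Type u) (_ : CommRing S) (q : L →+* S), q P = 0 ∧ ∀ x, q x = 0 → P ∣ x := by
  refine ⟨L ⧸ Ideal.span {P}, inferInstance, Ideal.Quotient.mk (Ideal.span {P}), ?_, ?_⟩
  · rw [Ideal.Quotient.eq_zero_iff_mem]
    exact Ideal.mem_span_singleton_self P
  · intro x hx
    rw [Ideal.Quotient.eq_zero_iff_mem, Ideal.mem_span_singleton] at hx
    exact hx

end Pool.Agent.Helper4.FS
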