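import Pool.Agent.Helper4.FS.Inj

/-!
Leading coefficients of the trace polynomials.
-/

set_option autoImplicit false

namespace Pool.Agent.Helper4.FS

open Polynomial Matrix

universe u v w

/-- upper triangular -/
def uu {R : Type u} [CommRing R] (x : R) : G2 R where
  val := !![1, x; 0, 1]
  inv := !![1, -x; 0, 1]
  val_inv := by
    ext i j; fin_cases i <;> fin_cases j <;> simp [Matrix.mul_apply, Fin.sum_univ_two]
  inv_val := by
    ext i j; fin_cases i <;> fin_cases j <;> simp [Matrix.mul_apply, Fin.sum_univ_two]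

/-- lower triangular -/
def ll {R : Type u} [CommRing R] (x : R) : G2 R where
  val := !![1, 0; x, 1]
  inv := !![1, 0; -x, 1]
  val_inv := by
    ext i j; fin_cases i <;> fin_cases j <;> simp [Matrix.mul_apply, Fin.sum_univ_two]
  inv_val := by
    ext i j; fin_cases i <;> fin_cases j <;> simp [Matrix.mul_apply, Fin.sum_univ_two]

section Maps

variable {R : Type u} {S : Type v} [CommRing R] [CommRing S]

theorem map_uu (f : R →+* S) (x : R) : Matrix.GeneralLinearGroup.map f (uu x) = uu (f x) := by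
  apply Units.ext
  ext i j
  fin_cases i <;> fin_cases j <;> simp [uu]

theorem map_ll (f : R →+* S) (x : R) : Matrix.GeneralLinearGroup.map f (ll x) = ll (f x) := by
  apply Units.ext
  ext i j
  fin_cases i <;> fin_cases j <;> simp [ll]

end Maps

section Deg

variable {D : Type u} [CommRing D]

/-- Degree bound with the coefficients of this degree. -/
def Bd (M : Matrix (Fin 2) (Fin 2) D[X]) (d : ℕ) (K : Matrix (Fin 2) (Fin 2) D) : Prop :=
  ∀ i j, (M i j).natDegree ≤ d ∧ (M i j).coeff d = K i j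

theorem bd_mul {M M' : Matrix (Fin 2) (Fin 2) D[X]} {d d' : ℕ}
    {K K' : Matrix (Fin 2) (Fin 2) D} (h : Bd M d K) (h' : Bd M' d' K') :
    Bd (M * M') (d + d') (K * K') := by
  intro i j
  rw [Matrix.mul_apply, Matrix.mul_apply, Fin.sum_univ_two, Fin.sum_univ_two]
  constructor
  · refine (Polynomial.natDegree_add_le _ _).trans (max_le ?_ ?_)
    · exact Polynomial.natDegree_mul_le_of_le (h i 0).1 (h' 0 j).1
    · exact Polynomial.natDegree_mul_le_of_le (h i 1).1 (h' 1 j).1
  · rw [Polynomial.coeff_add, Polynomial.coeff_mul_add_eq_of_natDegree_le (h i 0).1 (h' 0 j).1,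
      Polynomial.coeff_mul_add_eq_of_natDegree_le (h i 1).1 (h' 1 j).1, (h i 0).2, (h i 1).2,
      (h' 0 j).2, (h' 1 j).2]

theorem bd_C (a : Matrix (Fin 2) (Fin 2) D) : Bd (a.map (Polynomial.C : D →+* D[X])) 0 a := by
  intro i j
  rw [Matrix.map_apply]
  simp

/-- The leading matrix of a conjugate. -/
def kb (b : Matrix (Fin 2) (Fin 2) D) : Matrix (Fin 2) (Fin 2) D := !![0, 0; -b 0 1, 0]

theorem bd_conj (b : G2 D) :
    Bd (((ll (X : D[X]) * Matrix.GeneralLinearGroup.map (Polynomial.C : D →+* D[X]) b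
      * (ll (X : D[X]))⁻¹ : G2 D[X]) : Matrix (Fin 2) (Fin 2) D[X])) 2
      (kb (b : Matrix (Fin 2) (Fin 2) D)) := by
  have hinv : (((ll (X : D[X]))⁻¹ : G2 D[X]) : Matrix (Fin 2) (Fin 2) D[X])
      = !![1, 0; -X, 1] := rfl
  have hval : ((ll (X : D[X]) : G2 D[X]) : Matrix (Fin 2) (Fin 2) D[X]) = !![1, 0; X, 1] := rfl
  set c := (b : Matrix (Fin 2) (Fin 2) D) with hc
  have hb : ((Matrix.GeneralLinearGroup.map (Polynomial.C : D →+* D[X]) b : G2 D[X])
      : Matrix (Fin 2) (Fin 2) D[X]) = !![C (c 0 0), C (c 0 1); C (c 1 0), C (c 1 1)] := by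
    ext i j
    fin_cases i <;> fin_cases j <;> simp [hc]
  rw [Units.val_mul, Units.val_mul, hinv, hval, hb]
  have hprod : (!![1, 0; X, 1] * !![C (c 0 0), C (c 0 1); C (c 1 0), C (c 1 1)]
        * !![1, 0; -X, 1] : Matrix (Fin 2) (Fin 2) D[X])
      = !![C (c 0 0) + C (-(c 0 1)) * X, C (c 0 1);
          C (-(c 0 1)) * X ^ 2 + C (c 0 0 - c 1 1) * X + C (c 1 0),
          C (c 1 1) + C (c 0 1) * X] := by
    refine Matrix.ext fun i j => ?_
    fin_cases i <;> fin_cases j <;>
      simp [Matrix.mul_apply, Fin.sum_univ_two] <;> ring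
  rw [hprod]
  intro i j
  fin_cases i <;> fin_cases j
  · constructor
    · show (C (c 0 0) + C (-(c 0 1)) * X).natDegree ≤ 2
      compute_degree!
    · show (C (c 0 0) + C (-(c 0 1)) * X).coeff 2 = 0
      simp [Polynomial.coeff_C, Polynomial.coeff_X]
  · constructor
    · show (C (c 0 1)).natDegree ≤ 2
      simp
    · show (C (c 0 1)).coeff 2 = 0
      simp [Polynomial.coeff_C]
  · constructor
    · show (C (-(c 0 1)) * X ^ 2 + C (c 0 0 - c 1 1) * X + C (c 1 0)).natDegree ≤ 2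
      compute_degree!
    · show (C (-(c 0 1)) * X ^ 2 + C (c 0 0 - c 1 1) * X + C (c 1 0)).coeff 2 = -(c 0 1)
      simp [Polynomial.coeff_C, Polynomial.coeff_X]
  · constructor
    · show (C (c 1 1) + C (c 0 1) * X).natDegree ≤ 2
      compute_degree!
    · show (C (c 1 1) + C (c 0 1) * X).coeff 2 = 0
      simp [Polynomial.coeff_C, Polynomial.coeff_X]

/-- The product for a list of pairs of matrices. -/
noncomputable def nl (L : List (G2 D × G2 D)) : G2 D[X] :=
  (L.map fun p => Matrix.GeneralLinearGroup.map (Polynomial.C : D →+* D[X]) p.1 *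
    (ll (X : D[X]) * Matrix.GeneralLinearGroup.map (Polynomial.C : D →+* D[X]) p.2
      * (ll (X : D[X]))⁻¹)).prod

/-- The leading matrix for a list. -/
def kl : List (G2 D × G2 D) → Matrix (Fin 2) (Fin 2) D
  | [] => 1
  | (p :: L) => ((p.1 : Matrix (Fin 2) (Fin 2) D) * kb (p.2 : Matrix (Fin 2) (Fin 2) D)) * kl L

theorem bd_nl (L : List (G2 D × G2 D)) :
    Bd ((nl L : G2 D[X]) : Matrix (Fin 2) (Fin 2) D[X]) (2 * L.length) (kl L) := by
  induction L with
  | nil =>
    intro i j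
    simp only [nl, List.map_nil, List.prod_nil, Units.val_one, List.length_nil, mul_zero, kl]
    rw [Matrix.one_apply, Matrix.one_apply]
    split_ifs <;> simp
  | cons p L ih =>
    have h1 : (nl (p :: L) : G2 D[X]) = (Matrix.GeneralLinearGroup.map (Polynomial.C : D →+* D[X]) p.1 *
      (ll (X : D[X]) * Matrix.GeneralLinearGroup.map (Polynomial.C : D →+* D[X]) p.2
      * (ll (X : D[X]))⁻¹)) * nl L := by
      simp [nl]
    have h2 : Bd ((Matrix.GeneralLinearGroup.map (Polynomial.C : D →+* D[X]) p.1 : G2 D[X]) :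
        Matrix (Fin 2) (Fin 2) D[X]) 0 (p.1 : Matrix (Fin 2) (Fin 2) D) := by
      intro i j
      rw [Matrix.GeneralLinearGroup.map_apply]
      simp
    rw [h1, Units.val_mul, Units.val_mul]
    have h3 := bd_mul (bd_mul h2 (bd_conj p.2)) ih
    have h4 : 0 + 2 + 2 * L.length = 2 * (p :: L).length := by
      rw [List.length_cons]; ring
    rw [h4] at h3
    exact h3

theorem kl_entries (L : List (G2 D × G2 D)) (hL : L ≠ []) :
    (∀ i, kl L i 1 = 0) ∧ kl L 0 0 = (L.map fun p =>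
      -((p.1 : Matrix (Fin 2) (Fin 2) D) 0 1 * (p.2 : Matrix (Fin 2) (Fin 2) D) 0 1)).prod := by
  induction L with
  | nil => exact absurd rfl hL
  | cons p L ih =>
    have hk : ∀ i, ((p.1 : Matrix (Fin 2) (Fin 2) D) * kb (p.2 : Matrix (Fin 2) (Fin 2) D)) i 1 = 0 := by
      intro i
      rw [Matrix.mul_apply, Fin.sum_univ_two]
      simp [kb]
    have hk0 : ((p.1 : Matrix (Fin 2) (Fin 2) D) * kb (p.2 : Matrix (Fin 2) (Fin 2) D)) 0 0
        = -((p.1 : Matrix (Fin 2) (Fin 2) D) 0 1 * (p.2 : Matrix (Fin 2) (Fin 2) D) 0 1) := by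
      rw [Matrix.mul_apply, Fin.sum_univ_two]
      simp [kb]
    by_cases hL' : L = []
    · subst hL'
      constructor
      · intro i
        rw [kl, kl, mul_one]
        exact hk i
      · rw [kl, kl, mul_one, hk0]
        simp
    · obtain ⟨h1, h2⟩ := ih hL'
      constructor
      · intro i
        rw [kl, Matrix.mul_apply, Fin.sum_univ_two, hk i, h1 0]
        simp
      · rw [kl, Matrix.mul_apply, Fin.sum_univ_two, hk 0, hk0, h2]
        simp

theorem lu_deg (τ δ : D[X]) (d : ℕ) (t : D) (hd : 1 ≤ d) (h1 : τ.natDegree ≤ d)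
    (h2 : τ.coeff d = t) (h3 : δ.natDegree ≤ 0) : ∀ n,
    (lu τ δ (n + 1)).natDegree ≤ d * n ∧ (lu τ δ (n + 1)).coeff (d * n) = t ^ n
  | 0 => by simp [lu]
  | 1 => by
    have e : lu τ δ (1 + 1) = τ := by simp [lu]
    rw [e, mul_one, pow_one]
    exact ⟨h1, h2⟩
  | (n + 2) => by
    have e : lu τ δ (n + 2 + 1) = τ * lu τ δ (n + 1 + 1) - δ * lu τ δ (n + 1) := rfl
    obtain ⟨a1, a2⟩ := lu_deg τ δ d t hd h1 h2 h3 (n + 1)
    obtain ⟨b1, _⟩ := lu_deg τ δ d t hd h1 h2 h3 n
    have c1 : (δ * lu τ δ (n + 1)).natDegree ≤ 0 + d * n :=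
      Polynomial.natDegree_mul_le_of_le h3 b1
    have c2 : (τ * lu τ δ (n + 1 + 1)).natDegree ≤ d + d * (n + 1) :=
      Polynomial.natDegree_mul_le_of_le h1 a1
    have c3 : d + d * (n + 1) = d * (n + 2) := by ring
    have c4 : 0 + d * n < d * (n + 2) := by nlinarith
    rw [e]
    constructor
    · refine (Polynomial.natDegree_sub_le _ _).trans (max_le (by rw [← c3]; exact c2) ?_)
      exact c1.trans c4.le
    · rw [Polynomial.coeff_sub, ← c3, Polynomial.coeff_mul_add_eq_of_natDegree_le h1 a1, h2, a2,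
        Polynomial.coeff_eq_zero_of_natDegree_lt (by rw [c3]; exact lt_of_le_of_lt c1 c4), sub_zero]
      ring

theorem det_nl (L : List (G2 D × G2 D)) :
    ((nl L : G2 D[X]) : Matrix (Fin 2) (Fin 2) D[X]).det.natDegree ≤ 0 := by
  have key : ∃ c : D, ((nl L : G2 D[X]) : Matrix (Fin 2) (Fin 2) D[X]).det = C c := by
    induction L with
    | nil => exact ⟨1, by simp [nl]⟩
    | cons p L ih =>
      obtain ⟨c, hc⟩ := ih
      have h1 : (nl (p :: L) : G2 D[X]) = (Matrix.GeneralLinearGroup.map (Polynomial.C : D →+* D[X]) p.1 *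
        (ll (X : D[X]) * Matrix.GeneralLinearGroup.map (Polynomial.C : D →+* D[X]) p.2
        * (ll (X : D[X]))⁻¹)) * nl L := by
        simp [nl]
      have h2 : ∀ a : G2 D, ((Matrix.GeneralLinearGroup.map (Polynomial.C : D →+* D[X]) a : G2 D[X]) :
          Matrix (Fin 2) (Fin 2) D[X]).det = C ((a : Matrix (Fin 2) (Fin 2) D).det) := by
        intro a
        rw [Matrix.det_fin_two, Matrix.det_fin_two]
        simp
      refine ⟨(p.1 : Matrix (Fin 2) (Fin 2) D).det * (p.2 : Matrix (Fin 2) (Fin 2) D).det * c, ?_⟩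
      rw [h1, Units.val_mul, Units.val_mul, Matrix.det_mul, Matrix.det_mul, Units.val_mul,
        Units.val_mul, Matrix.det_units_conj, h2, h2, hc]
      simp
  obtain ⟨c, hc⟩ := key
  rw [hc]
  simp

/-- The trace polynomial is not constant. -/
theorem lead [IsDomain D] (L : List (G2 D × G2 D)) (hL : L ≠ [])
    (h : ∀ p ∈ L, (p.1 : Matrix (Fin 2) (Fin 2) D) 0 1 ≠ 0 ∧
      (p.2 : Matrix (Fin 2) (Fin 2) D) 0 1 ≠ 0) (n : ℕ) :
    lu ((nl L : G2 D[X]) : Matrix (Fin 2) (Fin 2) D[X]).trace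
      ((nl L : G2 D[X]) : Matrix (Fin 2) (Fin 2) D[X]).det (n + 2) ≠ 0 ∧
    ¬ IsUnit (lu ((nl L : G2 D[X]) : Matrix (Fin 2) (Fin 2) D[X]).trace
      ((nl L : G2 D[X]) : Matrix (Fin 2) (Fin 2) D[X]).det (n + 2)) := by
  have h1 := bd_nl L
  obtain ⟨h2, h3⟩ := kl_entries L hL
  have hlen : 1 ≤ L.length := List.length_pos_iff.mpr hL
  set t := kl L 0 0 with ht
  have ht0 : t ≠ 0 := by
    rw [h3]
    apply List.prod_ne_zero
    intro hmem
    rw [List.mem_map] at hmem
    obtain ⟨p, hp, hp0⟩ := hmem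
    rw [neg_eq_zero, mul_eq_zero] at hp0
    rcases hp0 with h' | h'
    · exact (h p hp).1 h'
    · exact (h p hp).2 h'
  have htr1 : ((nl L : G2 D[X]) : Matrix (Fin 2) (Fin 2) D[X]).trace.natDegree ≤ 2 * L.length := by
    rw [Matrix.trace_fin_two]
    exact (Polynomial.natDegree_add_le _ _).trans (max_le (h1 0 0).1 (h1 1 1).1)
  have htr2 : ((nl L : G2 D[X]) : Matrix (Fin 2) (Fin 2) D[X]).trace.coeff (2 * L.length) = t := by
    rw [Matrix.trace_fin_two, Polynomial.coeff_add, (h1 0 0).2, (h1 1 1).2, h2 1, add_zero]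
  obtain ⟨h4, h5⟩ := lu_deg _ _ (2 * L.length) t (by omega) htr1 htr2 (det_nl L) (n + 1)
  have h6 : t ^ (n + 1) ≠ 0 := pow_ne_zero _ ht0
  constructor
  · intro h0
    rw [show n + 2 = n + 1 + 1 from rfl] at h0
    rw [h0, Polynomial.coeff_zero] at h5
    exact h6 h5.symm
  · intro hu
    have h7 := Polynomial.natDegree_eq_zero_of_isUnit hu
    rw [show n + 2 = n + 1 + 1 from rfl] at h7
    have h8 : 0 < 2 * L.length * (n + 1) := by positivity
    rw [Polynomial.coeff_eq_zero_of_natDegree_lt (by rw [h7]; exact h8)] at h5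
    exact h6 h5.symm

end Deg

end Pool.Agent.Helper4.FS
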