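import Mathlib

/-!
Cyclically reduced words in free products.
-/

set_option autoImplicit false

namespace Pool.Agent.Helper4.FS

open Monoid

universe u v

variable {G : Type u} {H : Type v} [Group G] [Group H]

/-- The element of the free product given by a list of pairs of letters. -/
def wd (L : List (G × H)) : Coprod G H :=
  (L.map fun p => (Coprod.inl p.1 * Coprod.inr p.2 : Coprod G H)).prod

theorem wd_nil : wd ([] : List (G × H)) = 1 := rfl

theorem wd_cons (p : G × H) (L : List (G × H)) :
    wd (p :: L) = Coprod.inl p.1 * Coprod.inr p.2 * wd L := by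
  simp [wd]

theorem wd_append (L M : List (G × H)) : wd (L ++ M) = wd L * wd M := by
  simp [wd]

theorem exists_wd (r : Coprod G H) : ∃ L, wd L = r := by
  induction r using Coprod.induction_on with
  | inl a => exact ⟨[(a, 1)], by simp [wd]⟩
  | inr b => exact ⟨[(1, b)], by simp [wd]⟩
  | mul x y hx hy =>
    obtain ⟨L, hL⟩ := hx
    obtain ⟨M, hM⟩ := hy
    exact ⟨L ++ M, by rw [wd_append, hL, hM]⟩

theorem conj_comm (a b : Coprod G H) : IsConj (a * b) (b * a) := by
  rw [isConj_iff]
  exact ⟨a⁻¹, by group⟩

/-- An element not conjugate to an element of a factor is conjugate to a word with nontrivial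
letters. -/
theorem exists_reduced (r : Coprod G H) (h1 : ∀ c, ¬ IsConj r (Coprod.inl c))
    (h2 : ∀ c, ¬ IsConj r (Coprod.inr c)) :
    ∃ L : List (G × H), L ≠ [] ∧ (∀ p ∈ L, p.1 ≠ 1 ∧ p.2 ≠ 1) ∧ IsConj r (wd L) := by
  classical
  have hex : ∃ n : ℕ, ∃ L : List (G × H), L.length = n ∧ IsConj r (wd L) := by
    obtain ⟨L, hL⟩ := exists_wd r
    exact ⟨L.length, L, rfl, by rw [hL]⟩
  obtain ⟨L, hLn, hLc⟩ := Nat.find_spec hex
  have hmin : ∀ M : List (G × H), IsConj r (wd M) → L.length ≤ M.length := by
    intro M hM
    rw [hLn]
    exact Nat.find_min' hex ⟨M, rfl, hM⟩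
  refine ⟨L, ?_, ?_, hLc⟩
  · rintro rfl
    apply h1 1
    rw [map_one]
    exact hLc
  · intro p hp
    by_contra hcon
    obtain ⟨L1, L2, rfl⟩ := List.append_of_mem hp
    have hrot : IsConj r (wd (p :: (L2 ++ L1))) := by
      refine hLc.trans ?_
      rw [wd_append, ← List.cons_append, wd_append]
      exact conj_comm _ _
    have hlen : (L1 ++ p :: L2).length = (L2 ++ L1).length + 1 := by
      simp only [List.length_append, List.length_cons]; omega
    by_cases hM : L2 ++ L1 = []
    · rw [hM, wd_cons, wd_nil, mul_one] at hrot
      by_cases hp1 : p.1 = 1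
      · rw [hp1, map_one, one_mul] at hrot
        exact h2 _ hrot
      · have hp2 : p.2 = 1 := by
          by_contra hp2
          exact hcon ⟨hp1, hp2⟩
        rw [hp2, map_one, mul_one] at hrot
        exact h1 _ hrot
    · by_cases hp1 : p.1 = 1
      · -- merge `p.2` into the last letter
        rcases List.eq_nil_or_concat (L2 ++ L1) with h | ⟨M, q, h⟩
        · exact hM h
        · rw [wd_cons, hp1, map_one, one_mul, h, List.concat_eq_append] at hrot
          have hc : IsConj r (wd (M ++ [(q.1, q.2 * p.2)])) := by
            refine hrot.trans ((conj_comm _ _).trans ?_)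
            rw [wd_append, wd_append, wd_cons, wd_nil, wd_cons, wd_nil, mul_one, mul_one]
            simp only [map_mul, mul_assoc]
            exact IsConj.refl _
          have := hmin _ hc
          rw [hlen, h] at this
          simp only [List.length_append, List.length_concat, List.length_cons,
            List.length_nil] at this
          omega
      · have hp2 : p.2 = 1 := by
          by_contra hp2
          exact hcon ⟨hp1, hp2⟩
        rcases hMM : L2 ++ L1 with _ | ⟨q, M⟩
        · exact hM hMM
        · rw [hMM, wd_cons, wd_cons, hp2, map_one, mul_one] at hrot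
          have hc : IsConj r (wd ((p.1 * q.1, q.2) :: M)) := by
            rw [wd_cons]
            simp only [map_mul, mul_assoc] at hrot ⊢
            exact hrot
          have := hmin _ hc
          rw [hlen, hMM] at this
          simp only [List.length_cons] at this
          omega

end Pool.Agent.Helper4.FS
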