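import Pool.Agent.Helper4.FS.Lead
import Pool.Agent.Helper4.FS.Word

/-!
Homomorphisms of free products to `PGL(2, S)` which kill `r ^ m`.
-/

set_option autoImplicit false

namespace Pool.Agent.Helper4.FS

open Polynomial Matrix Monoid

universe u v w u' v'

section Nat

variable {R : Type u} {L : Type v} {F : Type w} {M : Type u'} [CommRing R] [CommRing L]
  [CommRing F] [CommRing M]

/-- The homomorphism which conjugates the second factor by `g`. -/
noncomputable def Ps (ι : R →+* L) (g : P2 L) : Coprod (P2 R) (P2 R) →* P2 L :=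
  Coprod.lift (pm ι) ((MulAut.conj g).toMonoidHom.comp (pm ι))

theorem ps_inl (ι : R →+* L) (g : P2 L) (a : P2 R) : Ps ι g (Coprod.inl a) = pm ι a := by
  rw [Ps, Coprod.lift_apply_inl]

theorem ps_inr (ι : R →+* L) (g : P2 L) (a : P2 R) :
    Ps ι g (Coprod.inr a) = g * pm ι a * g⁻¹ := by
  rw [Ps, Coprod.lift_apply_inr]
  rfl

theorem ps_nat (ι : R →+* L) (ρ : L →+* M) (σ : R →+* F) (κ : F →+* M)
    (h : ρ.comp ι = κ.comp σ) (g : P2 L) (w : Coprod (P2 R) (P2 R)) :
    pm ρ (Ps ι g w) = Ps κ (pm ρ g) (Coprod.map (pm σ) (pm σ) w) := by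
  have key : (pm ρ).comp (Ps ι g) = (Ps κ (pm ρ g)).comp (Coprod.map (pm σ) (pm σ)) := by
    apply Coprod.hom_ext
    · ext a
      rw [MonoidHom.comp_apply, MonoidHom.comp_apply, ps_inl, MonoidHom.comp_apply,
        MonoidHom.comp_apply, Coprod.map_apply_inl, ps_inl, pm_comp, pm_comp, h]
    · ext a
      rw [MonoidHom.comp_apply, MonoidHom.comp_apply, ps_inr, MonoidHom.comp_apply,
        MonoidHom.comp_apply, Coprod.map_apply_inr, ps_inr, map_mul, map_mul, map_inv, pm_comp,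
        pm_comp, h]
  exact DFunLike.congr_fun key w

end Nat

/-- The conjugating matrix. -/
def cm {L : Type u} [CommRing L] (x y z : L) : G2 L := uu x * ll y * uu z

/-- The conjugated letters. -/
noncomputable def cl {F : Type u} {D : Type v} [CommRing F] [CommRing D] (κ : F →+* D)
    (x0 z0 : D) (p : G2 F × G2 F) : G2 D × G2 D :=
  ((uu x0)⁻¹ * Matrix.GeneralLinearGroup.map κ p.1 * uu x0,
    uu z0 * Matrix.GeneralLinearGroup.map κ p.2 * (uu z0)⁻¹)

theorem cl_fst {F : Type u} {D : Type v} [CommRing F] [CommRing D] (κ : F →+* D)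
    (x0 z0 : D) (p : G2 F × G2 F) :
    (((cl κ x0 z0 p).1 : G2 D) : Matrix (Fin 2) (Fin 2) D) 0 1
      = κ ((p.1 : Matrix (Fin 2) (Fin 2) F) 0 1)
        + κ ((p.1 : Matrix (Fin 2) (Fin 2) F) 0 0 - (p.1 : Matrix (Fin 2) (Fin 2) F) 1 1) * x0
        - κ ((p.1 : Matrix (Fin 2) (Fin 2) F) 1 0) * x0 ^ 2 := by
  have hinv : (((uu x0)⁻¹ : G2 D) : Matrix (Fin 2) (Fin 2) D) = !![1, -x0; 0, 1] := rfl
  have hval : ((uu x0 : G2 D) : Matrix (Fin 2) (Fin 2) D) = !![1, x0; 0, 1] := rfl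
  show (((uu x0)⁻¹ * Matrix.GeneralLinearGroup.map κ p.1 * uu x0 : G2 D) :
    Matrix (Fin 2) (Fin 2) D) 0 1 = _
  rw [Units.val_mul, Units.val_mul, hinv, hval]
  simp only [Matrix.mul_apply, Fin.sum_univ_two, Matrix.GeneralLinearGroup.map_apply]
  simp
  ring

theorem cl_snd {F : Type u} {D : Type v} [CommRing F] [CommRing D] (κ : F →+* D)
    (x0 z0 : D) (p : G2 F × G2 F) :
    (((cl κ x0 z0 p).2 : G2 D) : Matrix (Fin 2) (Fin 2) D) 0 1
      = κ ((p.2 : Matrix (Fin 2) (Fin 2) F) 0 1)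
        + κ ((p.2 : Matrix (Fin 2) (Fin 2) F) 1 1 - (p.2 : Matrix (Fin 2) (Fin 2) F) 0 0) * z0
        - κ ((p.2 : Matrix (Fin 2) (Fin 2) F) 1 0) * z0 ^ 2 := by
  have hinv : (((uu z0)⁻¹ : G2 D) : Matrix (Fin 2) (Fin 2) D) = !![1, -z0; 0, 1] := rfl
  have hval : ((uu z0 : G2 D) : Matrix (Fin 2) (Fin 2) D) = !![1, z0; 0, 1] := rfl
  show ((uu z0 * Matrix.GeneralLinearGroup.map κ p.2 * (uu z0)⁻¹ : G2 D) :
    Matrix (Fin 2) (Fin 2) D) 0 1 = _
  rw [Units.val_mul, Units.val_mul, hinv, hval]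
  simp only [Matrix.mul_apply, Fin.sum_univ_two, Matrix.GeneralLinearGroup.map_apply]
  simp
  ring

/-- The value of the homomorphism at a word. -/
theorem ps_word {F : Type u} {D : Type v} [CommRing F] [CommRing D] (κ : F →+* D)
    (x0 z0 : D) (L : List (G2 F × G2 F)) :
    Ps ((Polynomial.C : D →+* D[X]).comp κ) (ProjGenLinGroup.mk (cm (C x0) X (C z0)))
        (wd (L.map fun p => ((ProjGenLinGroup.mk p.1 : P2 F), (ProjGenLinGroup.mk p.2 : P2 F))))
      = ProjGenLinGroup.mk (uu (C x0)) * ProjGenLinGroup.mk (nl (L.map (cl κ x0 z0)))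
        * (ProjGenLinGroup.mk (uu (C x0)))⁻¹ := by
  induction L with
  | nil =>
    simp [wd, nl]
  | cons p L ih =>
    have h1 : (nl ((p :: L).map (cl κ x0 z0)) : G2 D[X])
        = (Matrix.GeneralLinearGroup.map (Polynomial.C : D →+* D[X]) (cl κ x0 z0 p).1 *
          (ll (X : D[X]) * Matrix.GeneralLinearGroup.map (Polynomial.C : D →+* D[X])
            (cl κ x0 z0 p).2 * (ll (X : D[X]))⁻¹)) * nl (L.map (cl κ x0 z0)) := by
      simp [nl]
    have h2 : ∀ a : G2 F, Matrix.GeneralLinearGroup.map ((Polynomial.C : D →+* D[X]).comp κ) a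
        = Matrix.GeneralLinearGroup.map (Polynomial.C : D →+* D[X])
            (Matrix.GeneralLinearGroup.map κ a) := by
      intro a
      apply Units.ext
      ext i j
      simp
    rw [List.map_cons, wd_cons, map_mul, map_mul, ih, ps_inl, ps_inr, pm_mk, pm_mk, h1, h2, h2]
    have e1 : Matrix.GeneralLinearGroup.map (Polynomial.C : D →+* D[X]) (cl κ x0 z0 p).1
        = (uu (C x0))⁻¹ * Matrix.GeneralLinearGroup.map (Polynomial.C : D →+* D[X])
            (Matrix.GeneralLinearGroup.map κ p.1) * uu (C x0) := by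
      show Matrix.GeneralLinearGroup.map (Polynomial.C : D →+* D[X])
        ((uu x0)⁻¹ * Matrix.GeneralLinearGroup.map κ p.1 * uu x0) = _
      rw [map_mul, map_mul, map_inv, map_uu]
    have e2 : Matrix.GeneralLinearGroup.map (Polynomial.C : D →+* D[X]) (cl κ x0 z0 p).2
        = uu (C z0) * Matrix.GeneralLinearGroup.map (Polynomial.C : D →+* D[X])
            (Matrix.GeneralLinearGroup.map κ p.2) * (uu (C z0))⁻¹ := by
      show Matrix.GeneralLinearGroup.map (Polynomial.C : D →+* D[X])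
        (uu z0 * Matrix.GeneralLinearGroup.map κ p.2 * (uu z0)⁻¹) = _
      rw [map_mul, map_mul, map_inv, map_uu]
    rw [e1, e2, cm]
    simp only [map_mul, map_inv]
    group

theorem lu_red {L : Type u} {L' : Type v} [CommRing L] [CommRing L'] (q : L →+* L') (W : G2 L)
    (n : ℕ) : q (lu (W : Matrix (Fin 2) (Fin 2) L).trace (W : Matrix (Fin 2) (Fin 2) L).det n)
      = lu ((Matrix.GeneralLinearGroup.map q W : G2 L') : Matrix (Fin 2) (Fin 2) L').trace
        ((Matrix.GeneralLinearGroup.map q W : G2 L') : Matrix (Fin 2) (Fin 2) L').det n := by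
  rw [lu_map, Matrix.trace_fin_two, Matrix.trace_fin_two, Matrix.det_fin_two,
    Matrix.det_fin_two]
  simp

/-- The main theorem, for suitable rings. -/
theorem main_gen {R : Type u} [CommRing R] {F : Type v} [CommRing F] (σ : R →+* F)
    {D : Type w} [CommRing D] [IsDomain D] {L : Type u'} [CommRing L]
    (ι : R →+* L) (ρ : L →+* D[X]) (κ : F →+* D)
    (hcomp : ρ.comp ι = ((Polynomial.C : D →+* D[X]).comp κ).comp σ) (hGd : Gd ι ρ)
    (x y z : L) (x0 z0 : D) (hx : ρ x = C x0) (hz : ρ z = C z0) (hy : ρ y = X)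
    (hx0 : ∀ a b c : F, (a ≠ 0 ∨ b ≠ 0 ∨ c ≠ 0) → κ a + κ b * x0 - κ c * x0 ^ 2 ≠ 0)
    (hz0 : ∀ a b c : F, (a ≠ 0 ∨ b ≠ 0 ∨ c ≠ 0) → κ a + κ b * z0 - κ c * z0 ^ 2 ≠ 0)
    {A : Type v'} {B : Type*} [Group A] [Group B] (α : A →* P2 R) (β : B →* P2 R)
    (r : Coprod A B)
    (hr : ∃ L0 : List (P2 F × P2 F), L0 ≠ [] ∧ (∀ p ∈ L0, p.1 ≠ 1 ∧ p.2 ≠ 1) ∧
      IsConj (Coprod.map ((pm σ).comp α) ((pm σ).comp β) r) (wd L0))
    (n : ℕ) :
    ∃ (S : Type u') (_ : CommRing S) (f : R →+* S) (g : P2 S), Function.Injective f ∧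
      Coprod.lift ((pm f).comp α) ((MulAut.conj g).toMonoidHom.comp ((pm f).comp β)) r
        ^ (n + 2) = 1 := by
  set g0 : P2 L := ProjGenLinGroup.mk (cm x y z) with hg0
  obtain ⟨W, hW⟩ := ProjGenLinGroup.mk_surjective (Ps ι g0 (Coprod.map α β r))
  set P : L := lu (W : Matrix (Fin 2) (Fin 2) L).trace
    (W : Matrix (Fin 2) (Fin 2) L).det (n + 2) with hP
  -- the word
  obtain ⟨L0, hL0, hl0, hc0⟩ := hr
  rw [isConj_iff] at hc0
  obtain ⟨c, hc⟩ := hc0
  set s := Function.surjInv (ProjGenLinGroup.mk_surjective (n := Fin 2) (R := F)) with hs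
  have hsm : ∀ a : P2 F, (ProjGenLinGroup.mk (s a) : P2 F) = a :=
    Function.surjInv_eq (ProjGenLinGroup.mk_surjective (n := Fin 2) (R := F))
  set L1 : List (G2 F × G2 F) := L0.map (fun p => (s p.1, s p.2)) with hL1
  have hL01 : L1.map (fun p => ((ProjGenLinGroup.mk p.1 : P2 F), (ProjGenLinGroup.mk p.2 : P2 F)))
      = L0 := by
    rw [hL1, List.map_map]
    conv_rhs => rw [← List.map_id L0]
    apply List.map_congr_left
    intro p _
    simp [hsm]
  have hlead := lead (L1.map (cl κ x0 z0)) (by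
      intro h
      rw [List.map_eq_nil_iff, hL1, List.map_eq_nil_iff] at h
      exact hL0 h)
    (by
      intro p hp
      rw [List.mem_map] at hp
      obtain ⟨p', hp', rfl⟩ := hp
      rw [hL1, List.mem_map] at hp'
      obtain ⟨p'', hp'', rfl⟩ := hp'
      obtain ⟨k1, k2⟩ := hl0 p'' hp''
      rw [← hsm p''.1, Ne, ProjGenLinGroup.mk_eq_one, mem_cen] at k1
      rw [← hsm p''.2, Ne, ProjGenLinGroup.mk_eq_one, mem_cen] at k2
      rw [cl_fst, cl_snd]
      constructor
      · apply hx0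
        by_contra hcon
        push Not at hcon
        obtain ⟨i1, i2, i3⟩ := hcon
        exact k1 ⟨i1, i3, sub_eq_zero.mp i2⟩
      · apply hz0
        by_contra hcon
        push Not at hcon
        obtain ⟨i1, i2, i3⟩ := hcon
        exact k2 ⟨i1, i3, (sub_eq_zero.mp i2).symm⟩) n
  have hmk : pm ρ (Ps ι g0 (Coprod.map α β r))
      = Ps ((Polynomial.C : D →+* D[X]).comp κ) (ProjGenLinGroup.mk (cm (C x0) X (C z0)))
        (Coprod.map ((pm σ).comp α) ((pm σ).comp β) r) := by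
    have hcm : Matrix.GeneralLinearGroup.map ρ (cm x y z) = cm (C x0) X (C z0) := by
      rw [cm, map_mul, map_mul, map_uu, map_ll, map_uu, hx, hy, hz, cm]
    have hcm2 : pm ρ g0 = ProjGenLinGroup.mk (cm (C x0) X (C z0)) := by
      rw [hg0, pm_mk, hcm]
    have hmap : Coprod.map (pm σ) (pm σ) (Coprod.map α β r)
        = Coprod.map ((pm σ).comp α) ((pm σ).comp β) r := by
      have : (Coprod.map (pm σ) (pm σ)).comp (Coprod.map α β)
          = Coprod.map ((pm σ).comp α) ((pm σ).comp β) := by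
        apply Coprod.hom_ext
        · ext a; simp
        · ext a; simp
      exact DFunLike.congr_fun this r
    rw [ps_nat ι ρ σ ((Polynomial.C : D →+* D[X]).comp κ) hcomp, hcm2, hmap]
  obtain ⟨Z, hZ⟩ := ProjGenLinGroup.mk_surjective
    ((Ps ((Polynomial.C : D →+* D[X]).comp κ) (ProjGenLinGroup.mk (cm (C x0) X (C z0))) c)⁻¹
      * ProjGenLinGroup.mk (uu (C x0)))
  have hWZ : (ProjGenLinGroup.mk (Matrix.GeneralLinearGroup.map ρ W) : P2 D[X])
      = ProjGenLinGroup.mk Z * ProjGenLinGroup.mk (nl (L1.map (cl κ x0 z0)))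
        * (ProjGenLinGroup.mk Z)⁻¹ := by
    rw [← pm_mk, hW, hmk, hZ]
    have e1 : Coprod.map ((pm σ).comp α) ((pm σ).comp β) r
        = c⁻¹ * wd L0 * c := by rw [← hc]; group
    rw [e1, map_mul, map_mul, map_inv, ← hL01, ps_word]
    group
  obtain ⟨u1, hu1⟩ := lu_conj _ _ _ hWZ (n + 1)
  have hρP : ρ P = (u1 : D[X]) * lu ((nl (L1.map (cl κ x0 z0)) : G2 D[X]) :
      Matrix (Fin 2) (Fin 2) D[X]).trace ((nl (L1.map (cl κ x0 z0)) : G2 D[X]) :
      Matrix (Fin 2) (Fin 2) D[X]).det (n + 2) := by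
    rw [hP, lu_red ρ]; exact hu1
  have hP0 : ρ P ≠ 0 := by
    rw [hρP]
    exact mul_ne_zero u1.ne_zero hlead.1
  have hPu : ¬ IsUnit (ρ P) := by
    rw [hρP]
    intro hu
    exact hlead.2 (isUnit_of_mul_isUnit_right hu)
  obtain ⟨S, _, q, hq1, hq2⟩ := exists_quot L P
  refine ⟨S, inferInstance, q.comp ι, pm q g0, ?_, ?_⟩
  · rw [injective_iff_map_eq_zero]
    intro a ha
    exact gd_main hGd P hP0 hPu a (hq2 _ ha)
  · have e2 : Coprod.lift ((pm (q.comp ι)).comp α)
        ((MulAut.conj (pm q g0)).toMonoidHom.comp ((pm (q.comp ι)).comp β)) r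
        = ProjGenLinGroup.mk (Matrix.GeneralLinearGroup.map q W) := by
      rw [← pm_mk, hW]
      have : Coprod.lift ((pm (q.comp ι)).comp α)
          ((MulAut.conj (pm q g0)).toMonoidHom.comp ((pm (q.comp ι)).comp β))
          = ((pm q).comp (Ps ι g0)).comp (Coprod.map α β) := by
        apply Coprod.hom_ext
        · ext a
          simp only [MonoidHom.comp_apply, Coprod.lift_apply_inl, Coprod.map_apply_inl, ps_inl,
            pm_comp]
        · ext a
          simp only [MonoidHom.comp_apply, Coprod.lift_apply_inr, Coprod.map_apply_inr, ps_inr,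
            map_mul, map_inv, pm_comp]
          rfl
      exact DFunLike.congr_fun this r
    rw [e2]
    apply mk_pow_eq_one _ (n + 1)
    have e3 := lu_red q W (n + 2)
    rw [← hP, hq1] at e3
    exact e3.symm

end Pool.Agent.Helper4.FS
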